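import Mathlib
import Pool.Agent.KS6_6.HR.B

/-!
# Integers of equal height: the heights at the numbers `2 ^ x 3 ^ y n + i`

For almost all `n` of finite height `h(n)` all the integers `2 ^ x 3 ^ y n + i`, `x, y ≤ J`, `0 ≤ i ≤ R (2 ^ x 3 ^ y n)`,
where `R m = exp (√(log m) / (log log m) ^ 16)`, have the height `h(n) + x - y`. So all the integers in the `J + 1` runs
`[6 ^ j n, 6 ^ j n + R (6 ^ j n)]` have the height `h(n)`.

The starting point is the theorem of the library that almost all `n` are such that the trajectories of all `n + i`,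
`i ≤ R n`, have merged at the same time before they can reach `1`. If `n` is odd, `C n = 3 n + 1`; if `n` is even,
`n + 1` has the height of `n` and `C (n + 1) = 3 n + 4`; so for almost all `n` the height of `3 n` is `h(n) - 1`.
-/

set_option autoImplicit false

namespace Pool.Agent.Results.MP_e99302_nt.EqualHeightPatterns

open Filter Topology

/-- The Collatz map. -/
def C (n : ℕ) : ℕ := if n % 2 = 0 then n / 2 else 3 * n + 1

/-- The height of `n` is finite and equal to `k`: this is the least number of steps to reach `1`. -/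
def HeightEq (n k : ℕ) : Prop := C^[k] n = 1 ∧ ∀ j < k, C^[j] n ≠ 1

/-- The positive integers with the property `P` have natural density `l`. -/
def HasDensity (P : ℕ → Prop) (l : ℝ) : Prop :=
  Tendsto (fun N : ℕ => ({n : ℕ | 1 ≤ n ∧ n ≤ N ∧ P n}.ncard : ℝ) / N) atTop (𝓝 l)

/-- The length of the runs. -/
noncomputable def R (n : ℕ) : ℝ := Real.exp (√ (Real.log n) / (Real.log (Real.log n)) ^ 16)

/-- The integer `n` has a finite height `k > J`, and all the integers `2 ^ x 3 ^ y n + i` with `x, y ≤ J` and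
`0 ≤ i ≤ R (2 ^ x 3 ^ y n)` have the height `k + x - y`. -/
def Pattern (J n : ℕ) : Prop :=
  ∃ k, J < k ∧ HeightEq n k ∧ ∀ x y : ℕ, x ≤ J → y ≤ J → ∀ i : ℕ, (i : ℝ) ≤ R (2 ^ x * 3 ^ y * n) →
    HeightEq (2 ^ x * 3 ^ y * n + i) (k + x - y)

/-- There is a number `δ`, `0 < δ ≤ 1`, the natural density of the set of the integers of finite height, with `δ = 1`
exactly if every positive integer has a finite height, and the following holds.
(1) For every `J` the set of the `n` with `Pattern J n` has density `δ`, too: for almost all `n` of finite height `k` all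
the integers `2 ^ x 3 ^ y n + i`, `x, y ≤ J`, `0 ≤ i ≤ R (2 ^ x 3 ^ y n)`, have the height `k + x - y`.
(2) For every `J` the set of the `n` for which all the integers `6 ^ j n + i` with `j ≤ J` and `0 ≤ i ≤ R (6 ^ j n)` have
the same finite height has density `δ`.
(3) For all `J` and `L` there are infinitely many `n` such that all the integers `6 ^ j n + i` with `j ≤ J` and `i < L`
have the same finite height; for `J = 0` this is Q1. -/
theorem result :
    (∃ δ : ℝ, 0 < δ ∧ δ ≤ 1 ∧ (δ = 1 ↔ ∀ n, 1 ≤ n → ∃ k, HeightEq n k) ∧ HasDensity (fun n => ∃ k, HeightEq n k) δ ∧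
      (∀ J : ℕ, HasDensity (Pattern J) δ) ∧
      (∀ J : ℕ, HasDensity (fun n => ∃ k, ∀ j ≤ J, ∀ i : ℕ, (i : ℝ) ≤ R (6 ^ j * n) → HeightEq (6 ^ j * n + i) k) δ)) ∧
    ∀ J L m : ℕ, ∃ n, m ≤ n ∧ 1 ≤ n ∧ ∃ k, ∀ j ≤ J, ∀ i < L, HeightEq (6 ^ j * n + i) k := by
  obtain ⟨⟨δ, hδ0, hδ1, hδ, hd, -⟩, -⟩ := Pool.Agent.Results.MP_e99302_nt.LongRuns.result
  have hPE : ∀ J n : ℕ, KS6_6.HR.AllGood J n → (Pattern J n ↔ ∃ k, HeightEq n k) := by
    intro J n hn
    constructor
    · rintro ⟨k, h1, h2, h3⟩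
      exact ⟨k, h2⟩
    · rintro ⟨k, hk⟩
      have h7 := KS6_6.HR.pattern_of_good hn hk
      exact ⟨k, h7.1, hk, h7.2⟩
  have hP : ∀ J : ℕ, HasDensity (Pattern J) δ := fun J =>
    KS6_6.HR.hd_congr (KS6_6.HR.allGood_dens J) hd fun n _ hn => (hPE J n hn).symm
  have h6 : ∀ J n : ℕ, Pattern J n → ∃ k, ∀ j ≤ J, ∀ i : ℕ, (i : ℝ) ≤ R (6 ^ j * n) → HeightEq (6 ^ j * n + i) k := by
    rintro J n ⟨k, h1, h2, h3⟩
    refine ⟨k, fun j hj i hi => ?_⟩
    have e : 6 ^ j * n = 2 ^ j * 3 ^ j * n := by rw [← mul_pow]; norm_num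
    rw [e] at hi ⊢
    have h4 := h3 j j hj hj i hi
    rwa [Nat.add_sub_cancel] at h4
  have hR0 : ∀ n : ℕ, ((0 : ℕ) : ℝ) ≤ R n := fun n => by
    unfold R; push_cast; exact (Real.exp_pos _).le
  have h6d : ∀ J : ℕ, HasDensity (fun n => ∃ k, ∀ j ≤ J, ∀ i : ℕ, (i : ℝ) ≤ R (6 ^ j * n) → HeightEq (6 ^ j * n + i) k) δ := by
    intro J
    refine KS6_6.HR.hd_congr (KS6_6.HR.allGood_dens J) hd fun n _ hn => ⟨fun h => h6 J n ((hPE J n hn).2 h), ?_⟩
    rintro ⟨k, hk⟩
    have := hk 0 (Nat.zero_le _) 0 (by simpa using hR0 _)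
    have h9 : HeightEq n k := by simpa using this
    exact ⟨k, h9⟩
  refine ⟨⟨δ, hδ0, hδ1, hδ, hd, hP, h6d⟩, fun J L m => ?_⟩
  obtain ⟨M, hM⟩ := eventually_atTop.1 (Pool.Agent.Results.MP_e99302_nt.LongRuns.R_tendsto.eventually_ge_atTop (L : ℝ))
  obtain ⟨n, hn, hn1, k, hk⟩ := Pool.Agent.Results.MP_e99302_nt.LongRuns.dens_inf hδ0 (h6d J) (max m M)
  refine ⟨n, (le_max_left _ _).trans hn, hn1, k, fun j hj i hi => hk j hj i ?_⟩
  have h8 : n ≤ 6 ^ j * n := Nat.le_mul_of_pos_left _ (by positivity)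
  have h1 := hM (6 ^ j * n) ((le_max_right _ _).trans (hn.trans h8))
  have h2 : (i : ℝ) ≤ L := by exact_mod_cast hi.le
  exact h2.trans h1

end Pool.Agent.Results.MP_e99302_nt.EqualHeightPatterns
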