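import Mathlib
import Pool.Agent.KS6_6.HR.E
import Pool.Agent.KS6_24.ST.SHRMain

/-!
# Runs of equal height at the values of affine forms

For almost all `n` of finite height `k` all the integers `2 ^ x 3 ^ y n + i`, `x, y ≤ J`, `0 ≤ i ≤ R (2 ^ x 3 ^ y n)`,
where `R m = exp (√(log m) / (log log m) ^ 16)`, have the height `k + x - y` (`Pattern J n`); in particular `n, ..., n + L`
have the same height. Here this is extended to all systems of affine forms: if no two of the linear parts `B_1, ..., B_m`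
in `r` variables are related by a factor `2 ^ x 3 ^ y`, the proportion of the points `n` of the box `[1, N] ^ r` (and of a
convex set) such that each of the `m` integers `B_b · n + q_b` has the property `Pattern J` is asymptotically `δ ^ m`,
`δ` being the density of the integers of finite height. Examples: the terms `n, n + d, ..., n + (m - 1) d` of an
arithmetic progression; `n` and `N - n`; `n` and `5 n`.
-/

set_option autoImplicit false

namespace Pool.Agent.Results.MP_e99302_nt.RunsAlongForms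

open Filter Topology

/-- The Collatz map. -/
def C (n : ℕ) : ℕ := if n % 2 = 0 then n / 2 else 3 * n + 1

/-- The height of `n` is finite and equal to `k`: this is the least number of steps to reach `1`. -/
def HeightEq (n k : ℕ) : Prop := C^[k] n = 1 ∧ ∀ j < k, C^[j] n ≠ 1

/-- The positive integers with the property `P` have natural density `l`. -/
def HasDensity (P : ℕ → Prop) (l : ℝ) : Prop :=
  Tendsto (fun N : ℕ => ({n : ℕ | 1 ≤ n ∧ n ≤ N ∧ P n}.ncard : ℝ) / N) atTop (𝓝 l)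

/-- The length of the runs. -/
noncomputable def R (n : ℕ) : ℝ := Real.exp (√ (Real.log n) / (Real.log (Real.log n)) ^ 16)

/-- The integer `n` has a finite height `k > J`, and all the integers `2 ^ x 3 ^ y n + i` with `x, y ≤ J` and
`0 ≤ i ≤ R (2 ^ x 3 ^ y n)` have the height `k + x - y`. -/
def Pattern (J n : ℕ) : Prop :=
  ∃ k, J < k ∧ HeightEq n k ∧ ∀ x y : ℕ, x ≤ J → y ≤ J → ∀ i : ℕ, (i : ℝ) ≤ R (2 ^ x * 3 ^ y * n) →
    HeightEq (2 ^ x * 3 ^ y * n + i) (k + x - y)

/-- The linear form with the coefficients `A`. -/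
def lin {r : ℕ} (A n : Fin r → ℤ) : ℤ := ∑ j, A j * n j

/-- The number of the points `n` of the box `[1, N] ^ r` with `P n`, divided by `N ^ r`. -/
noncomputable def prob {r : ℕ} (N : ℕ) (P : (Fin r → ℤ) → Prop) : ℝ :=
  ({n : Fin r → ℤ | (∀ j, 1 ≤ n j ∧ n j ≤ N) ∧ P n}.ncard : ℝ) / N ^ r

/-- The linear form `A` is a product of the linear form `B` and a number `2 ^ x 3 ^ y`, `x` and `y` integers. -/
def Related {r : ℕ} (A B : Fin r → ℤ) : Prop := ∃ w x y z : ℕ, ∀ j, A j * (2 ^ w * 3 ^ x) = B j * (2 ^ y * 3 ^ z)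

/-- The integer point `n` is in the set `K` of real points. -/
def Mem {r : ℕ} (K : Set (Fin r → ℝ)) (n : Fin r → ℤ) : Prop := (fun j => (n j : ℝ)) ∈ K

/-- The patterns at the values of the `m` affine forms `B b · n + q b` with pairwise unrelated linear parts are
asymptotically independent: in the part of the box `[1, N] ^ r` which lies in the convex set `K` and where all the forms
are positive, the proportion of the `n` with `Pattern J (B b · n + q b)` for all `b` is `δ ^ m`, up to `o(N ^ r)`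
points, uniformly for all convex sets `K` and all constants `|q b| ≤ H N`. -/
def PatternLaw (δ : ℝ) : Prop :=
  ∀ (J H m r : ℕ) (B : Fin m → Fin r → ℤ), (∀ b, B b ≠ 0) → (∀ b b', b ≠ b' → ¬ Related (B b) (B b')) → ∀ ε : ℝ, 0 < ε →
    ∀ᶠ N : ℕ in atTop, ∀ q : Fin m → ℤ, (∀ b, |q b| ≤ H * N) → ∀ K : Set (Fin r → ℝ), Convex ℝ K →
      |prob N (fun n => Mem K n ∧ ∀ b, 0 < lin (B b) n + q b ∧ Pattern J (lin (B b) n + q b).toNat)
        - δ ^ m * prob N (fun n => Mem K n ∧ ∀ b, 0 < lin (B b) n + q b)| ≤ ε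

theorem sum_of_law {δ : ℝ} (hδ : 0 < δ) (h : PatternLaw δ) (J : ℕ) :
    ∀ᶠ N : ℕ in atTop, ∃ x y : ℕ, 1 ≤ x ∧ 1 ≤ y ∧ x + y = N ∧ Pattern J x ∧ Pattern J y := by
  have hne : ∀ b, (![fun _ => 1, fun _ => -1] : Fin 2 → Fin 1 → ℤ) b ≠ 0 := by
    intro b hb
    have := congrFun hb 0
    fin_cases b <;> simp at this
  have hun : ∀ b b', b ≠ b' → ¬ Related ((![fun _ => 1, fun _ => -1] : Fin 2 → Fin 1 → ℤ) b)
      ((![fun _ => 1, fun _ => -1] : Fin 2 → Fin 1 → ℤ) b') := by
    rintro b b' hbb ⟨w, x, y, z, hr⟩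
    have h1 := hr 0
    have h2 : (0 : ℤ) < 2 ^ w * 3 ^ x := by positivity
    have h3 : (0 : ℤ) < 2 ^ y * 3 ^ z := by positivity
    fin_cases b <;> fin_cases b' <;> simp at h1 hbb <;> linarith
  filter_upwards [h J 1 2 1 ![fun _ => 1, fun _ => -1] hne hun (δ ^ 2 / 4) (by positivity), eventually_ge_atTop 4] with N hN hN4
  have hNr : (4 : ℝ) ≤ N := by exact_mod_cast hN4
  have h1 := hN ![0, (N : ℤ)] (by intro b; fin_cases b <;> simp) Set.univ convex_univ
  have h2 : (3 / 4 : ℝ) ≤ prob N (fun n : Fin 1 → ℤ => Mem Set.univ n ∧ ∀ b, 0 < lin ((![fun _ => 1, fun _ => -1] : Fin 2 → Fin 1 → ℤ) b) n + (![0, (N : ℤ)] : Fin 2 → ℤ) b) := by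
    unfold prob
    obtain ⟨S, hS⟩ : ∃ S : Set (Fin 1 → ℤ), S = {n : Fin 1 → ℤ | (∀ j, 1 ≤ n j ∧ n j ≤ N) ∧ Mem Set.univ n ∧
        ∀ b, 0 < lin ((![fun _ => 1, fun _ => -1] : Fin 2 → Fin 1 → ℤ) b) n + (![0, (N : ℤ)] : Fin 2 → ℤ) b} := ⟨_, rfl⟩
    rw [← hS]
    have hfin : S.Finite := by
      refine (Set.finite_Icc (fun _ => (1 : ℤ)) (fun _ => (N : ℤ))).subset ?_
      rw [hS]
      rintro n ⟨h3, _⟩
      exact ⟨fun j => (h3 j).1, fun j => (h3 j).2⟩
    have h4 : N - 1 ≤ S.ncard := by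
      calc N - 1 = (Finset.Icc 1 (N - 1)).card := by rw [Nat.card_Icc]; omega
        _ = ((Finset.Icc 1 (N - 1) : Finset ℕ) : Set ℕ).ncard := (Set.ncard_coe_finset _).symm
        _ ≤ S.ncard := by
          refine Set.ncard_le_ncard_of_injOn (fun k : ℕ => (fun _ : Fin 1 => (k : ℤ))) ?_ ?_ hfin
          · intro k hk
            rw [Finset.coe_Icc, Set.mem_Icc] at hk
            rw [hS]
            have hk1 : (1 : ℤ) ≤ (k : ℤ) := by exact_mod_cast hk.1
            have hk2 : (k : ℤ) ≤ N := by have := hk.2; omega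
            refine ⟨fun _ => ⟨hk1, hk2⟩, Set.mem_univ _, fun b => ?_⟩
            fin_cases b <;> simp [lin] <;> omega
          · intro a _ b _ hab
            have h7 : (a : ℤ) = (b : ℤ) := congrFun hab 0
            exact_mod_cast h7
    rw [pow_one, le_div_iff₀ (by linarith)]
    have h6 : ((N - 1 : ℕ) : ℝ) ≤ S.ncard := Nat.cast_le.2 h4
    rw [Nat.cast_sub (by omega), Nat.cast_one] at h6
    linarith
  have h3 : 0 < prob N (fun n : Fin 1 → ℤ => Mem Set.univ n ∧ ∀ b, 0 < lin ((![fun _ => 1, fun _ => -1] : Fin 2 → Fin 1 → ℤ) b) n + (![0, (N : ℤ)] : Fin 2 → ℤ) b ∧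
      Pattern J (lin ((![fun _ => 1, fun _ => -1] : Fin 2 → Fin 1 → ℤ) b) n + (![0, (N : ℤ)] : Fin 2 → ℤ) b).toNat) := by
    have h4 := (abs_le.1 h1).1
    have h5 : 0 < δ ^ 2 := by positivity
    nlinarith
  have h4 : ∃ n : Fin 1 → ℤ, (∀ j, 1 ≤ n j ∧ n j ≤ N) ∧ Mem Set.univ n ∧
      ∀ b, 0 < lin ((![fun _ => 1, fun _ => -1] : Fin 2 → Fin 1 → ℤ) b) n + (![0, (N : ℤ)] : Fin 2 → ℤ) b ∧
        Pattern J (lin ((![fun _ => 1, fun _ => -1] : Fin 2 → Fin 1 → ℤ) b) n + (![0, (N : ℤ)] : Fin 2 → ℤ) b).toNat := by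
    by_contra hcon
    unfold prob at h3
    rw [Set.eq_empty_of_forall_notMem (s := {n : Fin 1 → ℤ | _}) (fun n hn => hcon ⟨n, hn⟩)] at h3
    simp at h3
  obtain ⟨n, hn1, -, hn2⟩ := h4
  have h5 := hn2 0
  have h6 := hn2 1
  simp [lin] at h5 h6
  refine ⟨(n 0).toNat, (-(n 0) + N).toNat, by omega, by omega, by omega, h5.2, h6.2⟩

/-- There is a number `δ`, `0 < δ ≤ 1`, the natural density of the set of the integers of finite height, with `δ = 1`
exactly if every positive integer has a finite height, and the following holds.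
(1) The patterns (`Pattern J`: a run of equal height and its images under `2 ^ x 3 ^ y`) at the values of affine forms in
any number of variables, with linear parts no two of which are related, are asymptotically independent, each with the
frequency `δ` (`PatternLaw`).
(2) Every sufficiently large integer is a sum of two positive integers `x, y` with `Pattern J x` and `Pattern J y`. -/
theorem result :
    (∃ δ : ℝ, 0 < δ ∧ δ ≤ 1 ∧ (δ = 1 ↔ ∀ n, 1 ≤ n → ∃ k, HeightEq n k) ∧ HasDensity (fun n => ∃ k, HeightEq n k) δ ∧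
      PatternLaw δ) ∧
    ∀ J : ℕ, ∀ᶠ N : ℕ in atTop, ∃ x y : ℕ, 1 ≤ x ∧ 1 ≤ y ∧ x + y = N ∧ Pattern J x ∧ Pattern J y := by
  obtain ⟨⟨δ, hδ0, hδ1, hδ, hd, -⟩, -⟩ := Pool.Agent.Results.MP_e99302_nt.LongRuns.result
  have hPE : ∀ J n : ℕ, KS6_6.HR.AllGood J n → (Pattern J n ↔ ∃ k, HeightEq n k) := by
    intro J n hn
    constructor
    · rintro ⟨k, h1, h2, h3⟩
      exact ⟨k, h2⟩
    · rintro ⟨k, hk⟩
      have h7 := KS6_6.HR.pattern_of_good hn hk
      exact ⟨k, h7.1, hk, h7.2⟩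
  have hlaw : PatternLaw δ := by
    intro J H m r B hB hun ε hε
    exact KS6_6.HR.forms_law Pool.Agent.KS6_24.ST.convu_all hB hun hd (KS6_6.HR.allGood_dens J) (fun n _ hn => hPE J n hn) H hε
  exact ⟨⟨δ, hδ0, hδ1, hδ, hd, hlaw⟩, sum_of_law hδ0 hlaw⟩

end Pool.Agent.Results.MP_e99302_nt.RunsAlongForms
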